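import Mathlib

/-!
# A locally compact group with small invariant neighbourhoods

The group `G` is the central extension of the discrete group `V`, a countable direct sum of groups
of order two, by the compact connected torus `Circle ^ (ℕ × ℕ)`, given by a bilinear cocycle.
-/

set_option autoImplicit false

namespace Pool.Agent.Lib.MP_58cc81_al

/-- The discrete elementary abelian 2-group of countable rank. -/
abbrev V : Type := ℕ →₀ ZMod 2

/-- The underlying space: a discrete group times a compact connected torus. -/
@[ext] structure G : Type where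
  v : V
  a : ℕ × ℕ → Circle

/-- The sign character. -/
noncomputable abbrev χ : AddChar (ZMod 2) Circle := ZMod.toCircle

/-- The bilinear cocycle. -/
noncomputable def c (v w : V) : ℕ × ℕ → Circle := fun p => χ (v p.1 * w p.2)

lemma c_add_left (u v w : V) : c (u + v) w = c u w * c v w := by
  funext p
  simp only [c, Finsupp.add_apply, add_mul, Pi.mul_apply]
  exact χ.map_add_eq_mul _ _

lemma c_add_right (u v w : V) : c u (v + w) = c u v * c u w := by
  funext p
  simp only [c, Finsupp.add_apply, mul_add, Pi.mul_apply]
  exact χ.map_add_eq_mul _ _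

lemma c_zero_left (w : V) : c 0 w = 1 := by
  funext p
  simp [c]

lemma c_zero_right (w : V) : c w 0 = 1 := by
  funext p
  simp [c]

lemma c_neg_left (v w : V) : c (-v) w = (c v w)⁻¹ := by
  have h := c_add_left (-v) v w
  rw [neg_add_cancel, c_zero_left] at h
  exact eq_inv_of_mul_eq_one_left h.symm

noncomputable instance : Group G where
  mul x y := ⟨x.v + y.v, x.a * y.a * c x.v y.v⟩
  one := ⟨0, 1⟩
  inv x := ⟨-x.v, x.a⁻¹ * c x.v x.v⟩
  mul_assoc x y z := by
    show (⟨_, _⟩ : G) = ⟨_, _⟩
    refine G.ext (add_assoc _ _ _) ?_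
    show x.a * y.a * c x.v y.v * z.a * c (x.v + y.v) z.v
      = x.a * (y.a * z.a * c y.v z.v) * c x.v (y.v + z.v)
    rw [c_add_left, c_add_right]
    simp only [mul_comm, mul_left_comm]
  one_mul x := by
    refine G.ext (zero_add _) ?_
    show 1 * x.a * c 0 x.v = x.a
    rw [c_zero_left]; simp
  mul_one x := by
    refine G.ext (add_zero _) ?_
    show x.a * 1 * c x.v 0 = x.a
    rw [c_zero_right]; simp
  inv_mul_cancel x := by
    refine G.ext (neg_add_cancel _) ?_
    show x.a⁻¹ * c x.v x.v * x.a * c (-x.v) x.v = 1
    rw [c_neg_left, mul_comm x.a⁻¹, mul_assoc (c x.v x.v), inv_mul_cancel, mul_one,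
      mul_inv_cancel]

lemma mul_v (x y : G) : (x * y).v = x.v + y.v := rfl
lemma mul_a (x y : G) : (x * y).a = x.a * y.a * c x.v y.v := rfl
lemma one_v : (1 : G).v = 0 := rfl
lemma one_a : (1 : G).a = 1 := rfl
lemma inv_v (x : G) : (x⁻¹).v = -x.v := rfl
lemma inv_a (x : G) : (x⁻¹).a = x.a⁻¹ * c x.v x.v := rfl

/-- `V` with the discrete topology. -/
instance : TopologicalSpace V := ⊥
instance : DiscreteTopology V := ⟨rfl⟩

/-- identification with the product -/
def toProd (x : G) : V × (ℕ × ℕ → Circle) := (x.v, x.a)

noncomputable instance : TopologicalSpace G := TopologicalSpace.induced toProd inferInstance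

/-- The homeomorphism with the product. -/
noncomputable def homeo : G ≃ₜ V × (ℕ × ℕ → Circle) where
  toFun := toProd
  invFun p := ⟨p.1, p.2⟩
  left_inv _ := rfl
  right_inv _ := rfl
  continuous_toFun := continuous_induced_dom
  continuous_invFun := by
    rw [continuous_induced_rng]
    exact continuous_id

lemma cont_v : Continuous (fun x : G => x.v) :=
  continuous_fst.comp homeo.continuous

lemma cont_a : Continuous (fun x : G => x.a) :=
  continuous_snd.comp homeo.continuous

lemma cont_mk {X : Type} [TopologicalSpace X] {f : X → V} {g : X → ℕ × ℕ → Circle}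
    (hf : Continuous f) (hg : Continuous g) : Continuous (fun x => (⟨f x, g x⟩ : G)) :=
  homeo.symm.continuous.comp (hf.prodMk hg)

lemma cont_c : Continuous (fun p : V × V => c p.1 p.2) :=
  continuous_of_discreteTopology

lemma cont_mul_a {X : Type} [TopologicalSpace X] {f g : X → ℕ × ℕ → Circle}
    (hf : Continuous f) (hg : Continuous g) : Continuous (fun x => f x * g x) := by
  refine continuous_pi fun p => ?_
  exact ((continuous_apply p).comp hf).mul ((continuous_apply p).comp hg)

lemma cont_inv_a {X : Type} [TopologicalSpace X] {f : X → ℕ × ℕ → Circle}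
    (hf : Continuous f) : Continuous (fun x => (f x)⁻¹) := by
  refine continuous_pi fun p => ?_
  exact ((continuous_apply p).comp hf).inv

lemma cont_pair : Continuous (fun p : G × G => (p.1.v, p.2.v)) :=
  (cont_v.comp continuous_fst).prodMk (cont_v.comp continuous_snd)

lemma cont_cc : Continuous (fun p : G × G => c p.1.v p.2.v) := by
  have h := cont_c.comp cont_pair
  simp only [Function.comp_def] at h
  exact h

lemma cont_c1 : Continuous (fun p : G => c p.v p.v) := by
  have h : Continuous (fun p : V => c p p) := continuous_of_discreteTopology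
  exact Continuous.comp (g := fun p : V => c p p) h cont_v

lemma cont_add : Continuous (fun p : G × G => p.1.v + p.2.v) := by
  have h : Continuous (fun p : V × V => p.1 + p.2) := continuous_of_discreteTopology
  exact Continuous.comp (g := fun p : V × V => p.1 + p.2) h cont_pair

lemma cont_neg : Continuous (fun p : G => -p.v) := by
  have h : Continuous (fun p : V => -p) := continuous_of_discreteTopology
  exact Continuous.comp (g := fun p : V => -p) h cont_v

lemma cont_aa : Continuous (fun p : G × G => p.1.a * p.2.a) :=
  cont_mul_a (f := fun p : G × G => p.1.a) (g := fun p : G × G => p.2.a)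
    (cont_a.comp continuous_fst) (cont_a.comp continuous_snd)

lemma cont_aac : Continuous (fun p : G × G => p.1.a * p.2.a * c p.1.v p.2.v) :=
  cont_mul_a (f := fun p : G × G => p.1.a * p.2.a) (g := fun p : G × G => c p.1.v p.2.v)
    cont_aa cont_cc

lemma cont_ia : Continuous (fun p : G => p.a⁻¹ * c p.v p.v) :=
  cont_mul_a (f := fun p : G => p.a⁻¹) (g := fun p : G => c p.v p.v)
    (cont_inv_a cont_a) cont_c1

instance : IsTopologicalGroup G where
  continuous_mul := cont_mk cont_add cont_aac
  continuous_inv := cont_mk cont_neg cont_ia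

instance : T2Space G := homeo.symm.t2Space

instance : LocallyCompactSpace G := homeo.isClosedEmbedding.locallyCompactSpace

/-- The sets with finitely many first coordinates are compact. -/
lemma isCompact_of_finite (F : Set V) (hF : F.Finite) : IsCompact {x : G | x.v ∈ F} := by
  have h : IsCompact (F ×ˢ (Set.univ : Set (ℕ × ℕ → Circle))) :=
    hF.isCompact.prod isCompact_univ
  have h2 := h.image homeo.symm.continuous
  convert h2 using 1
  ext x
  constructor
  · intro hx
    exact ⟨(x.v, x.a), ⟨hx, Set.mem_univ _⟩, rfl⟩
  · rintro ⟨p, hp, rfl⟩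
    exact hp.1

lemma finite_support (S : Finset ℕ) : {v : V | v.support ⊆ S}.Finite := by
  refine Set.Finite.of_injOn (f := fun (v : V) (s : S) => v s) (t := Set.univ)
    (fun _ _ => Set.mem_univ _) ?_ (Set.toFinite _)
  intro v hv w hw hvw
  ext n
  by_cases hn : n ∈ S
  · exact congrFun hvw ⟨n, hn⟩
  · have h1 : v n = 0 := by
      by_contra h
      exact hn (hv (Finsupp.mem_support_iff.mpr h))
    have h2 : w n = 0 := by
      by_contra h
      exact hn (hw (Finsupp.mem_support_iff.mpr h))
    rw [h1, h2]

lemma zmod2 (x : ZMod 2) : x = 0 ∨ x = 1 := by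
  revert x; decide


instance : SecondCountableTopology G := by
  haveI : Countable V := inferInstance
  haveI : SecondCountableTopology V := inferInstance
  exact homeo.secondCountableTopology

/-- The central torus. -/
def K : Subgroup G where
  carrier := {x : G | x.v = 0}
  mul_mem' := by
    intro x y hx hy
    have hx' : x.v = 0 := hx
    have hy' : y.v = 0 := hy
    show (x * y).v = 0
    rw [mul_v, hx', hy', add_zero]
  one_mem' := rfl
  inv_mem' := by
    intro x hx
    have hx' : x.v = 0 := hx
    show (x⁻¹).v = 0
    rw [inv_v, hx', neg_zero]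

lemma mem_K {x : G} : x ∈ K ↔ x.v = 0 := Iff.rfl

lemma K_central {x : G} (hx : x ∈ K) (g : G) : g * x = x * g := by
  have hx0 : x.v = 0 := hx
  refine G.ext ?_ ?_
  · rw [mul_v, mul_v, add_comm]
  · rw [mul_a, mul_a, hx0, c_zero_left, c_zero_right, mul_comm g.a]

lemma K_isOpen : IsOpen (K : Set G) := (isOpen_discrete ({0} : Set V)).preimage cont_v

lemma K_isClosed : IsClosed (K : Set G) := (isClosed_discrete ({0} : Set V)).preimage cont_v

lemma K_isCompact : IsCompact (K : Set G) := isCompact_of_finite {0} (Set.finite_singleton 0)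

lemma sq_mem_K (g : G) : g * g ∈ K := by
  rw [mem_K, mul_v]
  ext i
  rw [Finsupp.add_apply]
  exact CharTwo.add_self_eq_zero _

lemma K_isConnected : IsConnected (K : Set G) := by
  have hcont : Continuous (fun t : ℕ × ℕ → ℝ => (⟨0, fun p => Circle.exp (t p)⟩ : G)) :=
    cont_mk continuous_const
      (continuous_pi fun p => Circle.exp.continuous.comp (continuous_apply p))
  have h := isConnected_range hcont
  convert h using 1
  ext x
  constructor
  · intro hx
    have hx0 : x.v = 0 := hx
    refine ⟨fun p => Complex.arg (x.a p), ?_⟩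
    refine G.ext hx0.symm ?_
    funext p
    exact Circle.exp_arg (x.a p)
  · rintro ⟨t, rfl⟩
    exact rfl

lemma K_eq_connectedComponent : (K : Set G) = connectedComponent (1 : G) := by
  apply Set.Subset.antisymm
  · exact K_isConnected.isPreconnected.subset_connectedComponent K.one_mem
  · exact (isPreconnected_connectedComponent).subset_isClopen ⟨K_isClosed, K_isOpen⟩
      ⟨1, mem_connectedComponent, K.one_mem⟩

/-- Commuting elements have parallel discrete coordinates. -/
lemma parallel {x y : G} (h : x * y = y * x) (i j : ℕ) : x.v i * y.v j = y.v i * x.v j := by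
  have h := congrArg G.a h
  rw [mul_a, mul_a, mul_comm y.a x.a] at h
  have h2 := congrFun (mul_left_cancel h) (i, j)
  simp only [c] at h2
  exact ZMod.injective_toCircle h2

/-- The elements that commute with an element outside the torus lie in two cosets of it. -/
lemma comm_cases {x y : G} (h : x * y = y * x) (hx : x ∉ K) : y.v = 0 ∨ y.v = x.v := by
  obtain ⟨i, hi⟩ := Finsupp.ne_iff.mp (show x.v ≠ 0 from hx)
  have hi1 : x.v i = 1 := (zmod2 _).resolve_left hi
  have hyv : ∀ j, y.v j = y.v i * x.v j := by
    intro j
    have := parallel h i j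
    rw [hi1, one_mul] at this
    exact this
  rcases zmod2 (y.v i) with h0 | h1
  · left
    ext j
    rw [hyv j, h0, zero_mul]; rfl
  · right
    ext j
    rw [hyv j, h1, one_mul]

/-- Any two elements outside the torus that commute differ by an element of the torus. -/
lemma comm_imp {x y : G} (h : x * y = y * x) (hx : x ∉ K) (hy : y ∉ K) : x⁻¹ * y ∈ K := by
  rcases comm_cases h hx with h0 | h1
  · exact absurd h0 hy
  · rw [mem_K, mul_v, inv_v, h1, neg_add_cancel]

lemma abelian_precompact (H : Subgroup G) (hH : ∀ a ∈ H, ∀ b ∈ H, a * b = b * a) :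
    IsCompact (closure (H : Set G)) := by
  have hfin : ∃ F : Set V, F.Finite ∧ ∀ y ∈ H, y.v ∈ F := by
    by_cases hz : ∀ y ∈ H, y.v = 0
    · exact ⟨{0}, Set.finite_singleton _, fun y hy => hz y hy⟩
    · push Not at hz
      obtain ⟨x, hx, hxv⟩ := hz
      refine ⟨{0, x.v}, Set.toFinite _, ?_⟩
      intro y hy
      rcases comm_cases (hH x hx y hy) hxv with h | h
      · left; exact h
      · right; exact h
  obtain ⟨F, hF, hHF⟩ := hfin
  exact (isCompact_of_finite F hF).closure_of_subset hHF

lemma generates_precompact (S : Set G) (hK : IsCompact (closure S)) :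
    IsCompact (closure ((Subgroup.closure S : Subgroup G) : Set G)) := by
  have hfin : ((fun x : G => x.v) '' closure S).Finite :=
    (hK.image cont_v).finite_of_discrete
  let T : Finset ℕ := hfin.toFinset.biUnion (fun v => v.support)
  let P : Subgroup G :=
    { carrier := {x : G | x.v.support ⊆ T}
      mul_mem' := by
        intro x y hx hy
        show (x.v + y.v).support ⊆ T
        exact Finsupp.support_add.trans (Finset.union_subset hx hy)
      one_mem' := by
        show (0 : V).support ⊆ T
        simp
      inv_mem' := by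
        intro x hx
        show (-x.v).support ⊆ T
        rw [Finsupp.support_neg]
        exact hx }
  have hKP : S ⊆ P := by
    intro x hx
    show x.v.support ⊆ T
    intro n hn
    refine Finset.mem_biUnion.mpr ⟨x.v, ?_, hn⟩
    rw [Set.Finite.mem_toFinset]
    exact ⟨x, subset_closure hx, rfl⟩
  have hle : Subgroup.closure S ≤ P := (Subgroup.closure_le P).mpr hKP
  exact (isCompact_of_finite _ (finite_support T)).closure_of_subset hle

lemma not_totallyDisconnected : ¬ TotallyDisconnectedSpace G := by
  intro h
  have hcont : Continuous (fun t : ℝ => (⟨0, fun _ => Circle.exp t⟩ : G)) :=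
    cont_mk continuous_const (continuous_pi fun _ => Circle.exp.continuous)
  have hsub := (isPreconnected_range hcont).subsingleton
  have h0 := hsub (Set.mem_range_self 0) (Set.mem_range_self Real.pi)
  have h1 := congrFun (congrArg G.a h0) (0, 0)
  have h2 := congrArg (fun z : Circle => (z : ℂ)) h1
  simp only [Circle.coe_exp] at h2
  norm_num at h2

lemma not_compact : ¬ CompactSpace G := by
  intro h
  have h1 : IsCompact (Set.range (fun x : G => x.v)) := isCompact_range cont_v
  have h2 : Set.range (fun x : G => x.v) = Set.univ := by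
    ext v
    simp only [Set.mem_range, Set.mem_univ, iff_true]
    exact ⟨⟨v, 1⟩, rfl⟩
  rw [h2] at h1
  have h3 : (Set.univ : Set V).Finite := h1.finite_of_discrete
  exact Set.infinite_univ h3

lemma small_invariant (N : Set G) (hN : N ∈ nhds (1 : G)) :
    ∃ U ∈ nhds (1 : G), U ⊆ N ∧ ∀ g : G, (fun x => g * x * g⁻¹) '' U = U := by
  refine ⟨N ∩ (K : Set G), Filter.inter_mem hN (K_isOpen.mem_nhds K.one_mem),
    Set.inter_subset_left, ?_⟩
  intro g
  have hfix : ∀ x ∈ N ∩ (K : Set G), g * x * g⁻¹ = x := by
    intro x hx
    rw [K_central hx.2 g, mul_inv_cancel_right]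
  ext y
  constructor
  · rintro ⟨x, hx, rfl⟩
    show g * x * g⁻¹ ∈ N ∩ (K : Set G)
    rw [hfix x hx]
    exact hx
  · intro hy
    exact ⟨y, hy, hfix y hy⟩

/-- A group with small invariant neighbourhoods has equal left and right uniformities. -/
lemma uniform_eq {G : Type} [Group G] [TopologicalSpace G] [IsTopologicalGroup G]
    (h : ∀ N ∈ nhds (1 : G), ∃ U ∈ nhds (1 : G), U ⊆ N ∧
      ∀ g : G, (fun x => g * x * g⁻¹) '' U = U) :
    IsTopologicalGroup.leftUniformSpace G = IsTopologicalGroup.rightUniformSpace G := by
  apply UniformSpace.ext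
  have key : ∀ U : Set G, (∀ g : G, (fun x => g * x * g⁻¹) '' U = U) → ∀ a b : G,
      a⁻¹ * b ∈ U ↔ b * a⁻¹ ∈ U := by
    intro U hU a b
    constructor
    · intro hx
      rw [← hU a]
      exact ⟨a⁻¹ * b, hx, by group⟩
    · intro hx
      rw [← hU a⁻¹]
      exact ⟨b * a⁻¹, hx, by group⟩
  show Filter.comap (fun p : G × G => p.1⁻¹ * p.2) (nhds 1) =
    Filter.comap (fun p : G × G => p.2 * p.1⁻¹) (nhds 1)
  apply le_antisymm
  · intro s hs
    rw [Filter.mem_comap] at hs ⊢
    obtain ⟨N, hN, hs⟩ := hs
    obtain ⟨U, hU, hUN, hinv⟩ := h N hN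
    refine ⟨U, hU, fun p hp => hs (hUN ?_)⟩
    exact (key U hinv p.1 p.2).1 hp
  · intro s hs
    rw [Filter.mem_comap] at hs ⊢
    obtain ⟨N, hN, hs⟩ := hs
    obtain ⟨U, hU, hUN, hinv⟩ := h N hN
    refine ⟨U, hU, fun p hp => hs (hUN ?_)⟩
    exact (key U hinv p.1 p.2).2 hp

lemma K_index : K.index = 0 := by
  rw [Subgroup.index_eq_zero_iff_infinite]
  have hcomp : ∀ x y : G, (QuotientGroup.mk x : G ⧸ K) = QuotientGroup.mk y ↔ x.v = y.v := by
    intro x y
    rw [QuotientGroup.eq, mem_K, mul_v, inv_v]
    constructor
    · intro h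
      rw [neg_add_eq_zero] at h
      exact h
    · intro h
      rw [h, neg_add_cancel]
  refine Infinite.of_injective (fun v : V => (QuotientGroup.mk (⟨v, 1⟩ : G) : G ⧸ K)) ?_
  intro v w h
  exact (hcomp _ _).1 h

end Pool.Agent.Lib.MP_58cc81_al
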